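import Pool.Agent.Y890.VH.TenMain

/-!
The Hodge locus at points of bounded height, for arbitrary variations of Hodge structure over open subsets of affine
spaces: the points with a Hodge tensor of bounded degree and size with an infinite orbit under monodromy are sparse.
-/

namespace Pool.Agent.Results.MP_0704bf_ag.BoundedTensors

open Filter Pool.Agent Pool.Agent.Y890.MV Pool.Agent.Y890.VH

/-- Let `U` be a nonempty connected open subset of `ℂ ^ X`, and `F_j`, `j` in a finite set `J`, matrices of analytic
functions on `U` with rows indexed by `H` and `r j` columns (`f ⟨j, (m, c)⟩` is the entry `(m, c)` of `F_j`; e.g. bases of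
the pieces of the Hodge filtration in a flat basis). Assume that the elements of the field generated by `x` and the
entries which are algebraic over `ℂ(x)` are in `ℂ(x)` (`RegularM`), and let `Γ` be a subgroup of `GL_H(ℤ)` such that all
polynomial relations over `ℂ[x]` between the entries of the `F_j` on `U` are relations between the entries of the
matrices `γ F_j`, for all `γ ∈ Γ` (`MonInv`; e.g. the monodromy group). A tensor `t` of type `S` at `s` (`Mor`) is a
linear map from the `b`-th to the `a`-th tensor power of `ℂ ^ H` which maps `F_(j 0)(s) ⊗ .. ⊗ F_(j (b - 1))(s)` to the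
sum of the `F_(i 0)(s) ⊗ .. ⊗ F_(i (a - 1))(s)` for `i ∈ S j`, for all `j` (column spaces); `S` is arbitrary.
There is `ω → ∞` such that for all large `T`, all number fields `K` of degree at most `ω T`, embedded in `ℂ`: the points
`s` of `U` with coordinates in `K` of height at most `T`, of norm at most `ω T` and at distance at least `1 / ω T` from
the complement of `U`, at which for some `a, b ≤ ω T` and `S` some tensor of type `S` with entries in the integers of
`K`, all conjugates of which are of absolute value at most `T ^ ω T`, is not a tensor of type `S` of the `γ F_j(s)` for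
some `γ ∈ Γ` (`ExcTen`), lie on at most `T ^ (1 / ω T)` hypersurfaces of degree at most `T ^ (1 / ω T)`; and there are at
most `T ^ (1 / ω T) * N ^ (|X| - 1)` of them, `N` being the number of elements of `K` of height at most `T`. They
contain all such points `s` (`HodgePts`) at which for some `a, b ≤ ω T` and some definite type `S` (the nonzero real
tensors of type `S` at points of `U` are positive for some quadratic form invariant under `Γ`, as for Hodge tensors of a
polarized variation) some integral tensor of type `S` with entries at most `T ^ ω T` has an infinite orbit under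
`Γ`. -/
theorem result {X H J : Type} [Fintype X] [DecidableEq X] [Nonempty X] [Fintype H] [DecidableEq H] [Fintype J]
    [DecidableEq J] {r : J → ℕ} {U : Set (X → ℂ)} {f : Sg H J r → (X → ℂ) → ℂ}
    (hU : IsPreconnected U) (hUo : IsOpen U) (hne : U.Nonempty) (hf : ∀ i, AnalyticOnNhd ℂ (f i) U)
    (hreg : RegularM U f) (Γ : Subgroup (GL H ℤ))
    (hΓ : ∀ γ ∈ Γ, MonInv U f ((γ : Matrix H H ℤ).map (Int.castRingHom ℂ))) :
    ∃ (ω : ℝ → ℕ) (T₀ : ℝ), Tendsto ω atTop atTop ∧ Monotone ω ∧ ∀ T, T₀ ≤ T → 0 < ω T ∧
      ∀ (K : Type) [Field K] [NumberField K], Module.finrank ℚ K ≤ ω T → ∀ io : K →+* ℂ,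
        ∃ E : Set (X → K), E = ExcTen f (InnerM U (ω T)) K io
            (Γ.map (Matrix.GeneralLinearGroup.map (Int.castRingHom ℂ))) (ω T) T ∧
          HodgePts U f (InnerM U (ω T)) K io Γ (ω T) T ⊆ E ∧
          Y124.Cov ⌊T ^ ((ω T : ℝ)⁻¹)⌋₊ ⌊T ^ ((ω T : ℝ)⁻¹)⌋₊ ((fun (s : X → K) j => io (s j)) '' E) ∧
          E.Finite ∧
          (E.ncard : ℝ) ≤ T ^ ((ω T : ℝ)⁻¹) * ({x : K | Y120.HtLe K T x}.ncard : ℝ) ^ (Fintype.card X - 1) := by
  obtain ⟨ω, T₀, h1, h2, h3⟩ := mainT hU hUo hne hf hreg
    (Γ.map (Matrix.GeneralLinearGroup.map (Int.castRingHom ℂ))) (by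
      rintro _ ⟨γ, hγ, rfl⟩
      exact hΓ γ hγ)
  refine ⟨ω, T₀, h1, h2, fun T hT => ⟨(h3 T hT).1, fun K _ _ hK io => ⟨_, rfl, ?_, (h3 T hT).2 K hK io⟩⟩⟩
  exact hodgePts_sub f (innerM_sub _ (h3 T hT).1) K io Γ _ T

end Pool.Agent.Results.MP_0704bf_ag.BoundedTensors
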