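import Pool.Agent.Y92.ZF.Main
import Pool.Agent.Y226.ZG.Main2

/-!
# MP_0704bf_ag: finiteness of the atypical Hodge locus for products of families of elliptic curves
over curves of any genus and degree

**The families.** Let `E_1, …, E_n` be elliptic curves over `ℚ̄(t)`,

  `E_i : y² = x³ + A_i(t) x + B_i(t)`,   `A_i, B_i ∈ ℚ̄[t]`,   `disc_i = 4 A_i³ + 27 B_i² ≠ 0`,

with potentially multiplicative reduction at `t = ∞`: the `j`-invariant `1728 · 4 A_i³ / disc_i` has a
pole there, `deg disc_i < 3 deg A_i`. (An elliptic curve over `ℚ̄(t)` with nonconstant `j`-invariant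
always has such a place, which can be moved to `∞`.) For example, `E_i` can be the Legendre family
`y² = x (x - 1) (x - t)`.

**The base.** Let `V ⊆ ℂ^n` be an irreducible curve over the algebraic numbers, of any genus and any
degree, given by its prime ideal `I`, with nonconstant coordinates, in general position: for `i ≠ j`
the coordinates `y_i` and `y_j` satisfy on `V` an equation
`∑_{u ≤ a, v ≤ b} g_{uv} y_i ^ u y_j ^ v = 0` with `g_{00}, g_{a0}, g_{0b}, g_{ab} ≠ 0` (the zeros and
poles of `y_i` on the smooth projective model of `V` are different from those of `y_j`). Let `lam_i`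
and `mu_i` be rational numbers and let `S ⊆ V` be the set of the points `y` such that the fibre of
`E_i` at `t = lam_i y_i + mu_i` is smooth for all `i` (`base`). On `S` we have the families of
elliptic curves `E_i (lam_i y_i + mu_i)` (the pullbacks of the `E_i`) and the polarizable variation
of Hodge structure `𝕍 = ⊕_i R¹π_{i*} ℤ` (restrict it to the smooth part of `S`, or pull it back to
the normalisation, if `V` is singular). Its period domain is the product `D` of `n` upper half
planes, and `Γ = SL_2(ℤ)^n`. By the elliptic modular function `jj = j = E₄³ / Δ` the quotient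
`Γ \ D` is identified with `Y(1)^n = ℂ^n`, and the period map `Φ` is given by the `j`-invariants
(`period`).

The Hodge subvarieties `Γ' \ D'` of `Γ \ D` are the special subvarieties of `Y(1)^n`. Those of
dimension `r` are given by `H294ZP.SpecialDatum n r`: `Z.locus` is the set of the points `x` with
`x_i = j (τ_i)` (`τ_i` a fixed CM point) for the constant coordinates, and `x_i = j (g_i z_k)` for
the coordinates of class `k`, where `z_1, …, z_r` are free in the upper half plane and `g_i` is a
fixed integral matrix of positive determinant.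

**Theorem.** For each `W` there is a number `D`, which depends only on `V`, the `E_i` and `W`, such
that the following holds for all rational `lam_i` and `mu_i` for which there are a prime number
`p > D` and `e > 0` with `v_p (lam_i) = - w_i e`, `1 ≤ w_i ≤ W`, and `v_p (mu_i) > v_p (lam_i)` for all
`i` (for example `lam_i = 1 / m`, `m` an integer with a prime factor larger than `D`, and
`mu_i ∈ ℤ`):
1. `Φ` maps only finitely many points of `S` to special subvarieties of codimension at least two;
2. every proper special subvariety contains the images of only finitely many points of `S`, and not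
   of all points of `S`.
By 2. the generic Mumford-Tate domain of `𝕍` is `D`, and the special subvarieties of `S` for `𝕍` are
`S` itself, which is not atypical, and points. A special point `P` is atypical if it belongs to
`S^sing`, a proper closed subvariety of the curve `S` and so a finite set, or if
`n = codim Φ(P) < (n - 1) + codim Γ' \ D'`, that is, if `Φ(P)` lies on a special subvariety `Γ' \ D'`
of codimension at least two. So 1. says that the atypical Hodge locus of `𝕍` is finite, which is Q1
for these `S` and `𝕍`.
-/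

namespace Pool.Agent.Results.MP_0704bf_ag.FamiliesOverCurves

open H294ZP MvPolynomial

/-- The polynomial `4 A³ + 27 B²` (up to a constant, the discriminant of `y² = x³ + A x + B`). -/
noncomputable def disc (A B : Polynomial (algebraicClosure ℚ ℂ)) :
    Polynomial (algebraicClosure ℚ ℂ) :=
  4 * A ^ 3 + 27 * B ^ 2

/-- The base `S` of the families: the points `y` of the curve (the common zeros of `I`) such that the
fibre of `y² = x³ + A_i x + B_i` at `lam_i y_i + mu_i` is smooth for all `i`. -/
def base {n : ℕ} (I : Ideal (MvPolynomial (Fin n) (algebraicClosure ℚ ℂ)))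
    (A B : Fin n → Polynomial (algebraicClosure ℚ ℂ)) (lam mu : Fin n → ℚ) : Set (Fin n → ℂ) :=
  {y | (∀ f ∈ I, aeval y f = 0) ∧
    ∀ i, Polynomial.aeval ((lam i : ℂ) * y i + mu i) (disc (A i) (B i)) ≠ 0}

/-- The period map: the `j`-invariants `1728 · 4 A_i³ / (4 A_i³ + 27 B_i²)` of the fibres at
`lam_i y_i + mu_i`. -/
noncomputable def period {n : ℕ} (A B : Fin n → Polynomial (algebraicClosure ℚ ℂ))
    (lam mu : Fin n → ℚ) (y : Fin n → ℂ) (i : Fin n) : ℂ :=
  6912 * Polynomial.aeval ((lam i : ℂ) * y i + mu i) (A i) ^ 3 /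
    Polynomial.aeval ((lam i : ℂ) * y i + mu i) (disc (A i) (B i))

/-- The atypical Hodge locus of a product of families of elliptic curves over a curve is finite. -/
theorem result {n : ℕ} (I : Ideal (MvPolynomial (Fin n) (algebraicClosure ℚ ℂ)))
    (hI : I.IsPrime) (hconst : ∀ (i : Fin n) (c : algebraicClosure ℚ ℂ), X i - C c ∉ I)
    (hgen : ∀ i j : Fin n, i ≠ j → ∃ (a b : ℕ) (g : ℕ → ℕ → algebraicClosure ℚ ℂ),
      g 0 0 ≠ 0 ∧ g a 0 ≠ 0 ∧ g 0 b ≠ 0 ∧ g a b ≠ 0 ∧
      ∑ u ∈ Finset.range (a + 1), ∑ v ∈ Finset.range (b + 1),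
        C (g u v) * X i ^ u * X j ^ v ∈ I)
    (A B : Fin n → Polynomial (algebraicClosure ℚ ℂ)) (hdisc : ∀ i, disc (A i) (B i) ≠ 0)
    (hpole : ∀ i, (disc (A i) (B i)).natDegree < 3 * (A i).natDegree) (W : ℕ) :
    ∃ D : ℕ, ∀ lam mu : Fin n → ℚ,
      (∃ (p e : ℕ) (w : Fin n → ℕ), p.Prime ∧ D < p ∧ 0 < e ∧ ∀ i, 0 < w i ∧ w i ≤ W ∧
        padicValRat p (lam i) = -((w i : ℤ) * e) ∧
        padicValRat p (lam i) < padicValRat p (mu i)) →
      {y | y ∈ base I A B lam mu ∧ ∃ (r : ℕ) (Z : SpecialDatum n r), r + 2 ≤ n ∧
        period A B lam mu y ∈ Z.locus}.Finite ∧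
      ∀ (r : ℕ) (Z : SpecialDatum n r), r < n →
        {y | y ∈ base I A B lam mu ∧ period A B lam mu y ∈ Z.locus}.Finite ∧
        ∃ y ∈ base I A B lam mu, period A B lam mu y ∉ Z.locus := by
  have hnum : ∀ i, (Polynomial.C (6912 : algebraicClosure ℚ ℂ) * A i ^ 3).natDegree =
      3 * (A i).natDegree := by
    intro i
    rw [Polynomial.natDegree_C_mul (by norm_num), Polynomial.natDegree_pow]
  obtain ⟨D, hD⟩ := Pool.Agent.Y92.ZF.main_ZF I hI hconst (fun i j hij => by
    obtain ⟨a, b, g, h1, h2, h3, h4, h5⟩ := hgen i j hij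
    exact ⟨a, b, Pool.Agent.Y226.ZG.mkG a b g, Pool.Agent.Y226.ZG.mkG_cor h1 h2 h3 h4, by
      rw [Pool.Agent.Y226.ZG.E2_mkG]; exact h5⟩)
    (fun i => Polynomial.C 6912 * A i ^ 3) (fun i => disc (A i) (B i)) hdisc
    (fun i => by rw [hnum i]; exact hpole i) W
  refine ⟨D, fun lam mu h => ?_⟩
  have hper : ∀ y : Fin n → ℂ, (fun i => Pool.Agent.Y92.ZF.qv (Polynomial.C 6912 * A i ^ 3)
      (disc (A i) (B i)) (lam i * y i + mu i)) = period A B lam mu y := by
    intro y
    funext i
    unfold Pool.Agent.Y92.ZF.qv period
    rw [Polynomial.eval₂_mul, Polynomial.eval₂_C, Polynomial.eval₂_pow, map_ofNat]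
    rfl
  have h1 := hD lam mu h
  simp only [hper] at h1
  exact h1

end Pool.Agent.Results.MP_0704bf_ag.FamiliesOverCurves
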