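import Pool.Agent.Y118.HX.Hge

/-!
# Integral points of hypergeometric variations of Hodge structure of Calabi–Yau type are Hodge generic

Let `β_1, …, β_m` be rational numbers in `(0, 1)` and `θ = z d/dz`. The hypergeometric operator
`θ^(2m) - z ∏_j (θ + β_j) (θ + 1 - β_j)` has maximally unipotent monodromy at `z = 0` and underlies an irreducible
variation of Hodge structure of rank `2m` and of weight `2m - 1` with all Hodge numbers `h^{p,q} = 1` on the projective
line minus three points, with generic Mumford–Tate group `GSp(2m)`; it is defined over `ℚ` if the set of the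
`exp (2 π i β_j)^{±1}` with multiplicities is Galois stable. In coordinates with respect to the Frobenius basis
`f_0, …, f_{2m-1}` of solutions the step `F^{2m-1-i}`, `i < m`, of the Hodge filtration is spanned by the rows
`(θ^l f_0, …, θ^l f_{2m-1})`, `l ≤ i`, and `F^p` is for `p < m` the orthogonal complement of `F^{2m-p}`. The integral
structure is given by an invertible matrix `C`, with periods of the limiting mixed Hodge structure as entries. We prove
for `m ≥ 4` that only finitely many of the points `z = 1 / t`, `t = 1, 2, 3, …`, are in the Hodge locus of the tensor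
powers of this variation, uniformly in all polarised rational structures: for all large `t` all Hodge tensors (of all
degrees) are invariant under the Lie algebra of the symplectic group of the polarisation, so that the Mumford–Tate
group is `GSp(2m)`. (Hodge endomorphisms `a` give the Hodge tensors `⟨v a, w⟩` of degree `2`, so they are scalars.)
-/

set_option autoImplicit false

open PowerSeries

namespace Pool.Agent.Results.MP_0704bf_ag.HodgeGenericIntegralPoints

/-- the power series `x + ε` in the variable `ε` -/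
noncomputable def shift (x : ℚ) : PowerSeries ℚ := C x + X

/-- `a_k(ε) = ∏_{l < k} ∏_j (l + ε + β_j) (l + ε + 1 - β_j) / (l + 1 + ε)^2`. The series `∑_k a_k(ε) z^(k + ε)` satisfies
`(θ^n - z ∏_j (θ + β_j) (θ + 1 - β_j)) f = ε^n z^ε`, `n = 2m`, hence its coefficients `f_j` at `ε^j` with `j < n` are
solutions of the homogeneous equation. -/
noncomputable def frob {m : ℕ} (β : Fin m → ℚ) (k : ℕ) : PowerSeries ℚ :=
  ∏ l ∈ Finset.range k, ∏ j, (shift (l + β j) * shift (l + 1 - β j) * ((shift (l + 1))⁻¹) ^ 2)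

/-- The row `((θ^i f_j)(1 / t))_j`, where `f_j(z)` is the coefficient of `ε^j` in the series `∑_k a_k(ε) z^(k + ε)`,
`z^ε = ∑_l (log z)^l ε^l / l!`. -/
noncomputable def per {m : ℕ} (β : Fin m → ℚ) (t i : ℕ) : Fin (2 * m) → ℂ := fun j =>
  ∑ l ∈ Finset.range ((j : ℕ) + 1), ((Real.log (1 / t) ^ l / l.factorial : ℝ) : ℂ) *
    ∑' k : ℕ, ((coeff ((j : ℕ) - l) (shift k ^ i * frob β k) : ℚ) : ℂ) * (1 / (t : ℂ)) ^ k

/-- The nilpotent matrix: `exp (2 π i N)` is the local monodromy at `z = 0` in the basis `f_0, …, f_{n-1}`. -/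
def N (n : ℕ) : Matrix (Fin n) (Fin n) ℂ := Matrix.of fun i j => if (j : ℕ) = i + 1 then 1 else 0

/-- the matrix of the flat alternating form in the Frobenius basis -/
def S (n : ℕ) : Matrix (Fin n) (Fin n) ℂ := Matrix.of fun i j => if (i : ℕ) + j + 1 = n then (-1) ^ (i : ℕ) else 0

/-- The base change `C` from the Frobenius basis is a polarised rational structure: the logarithm `2 π i C⁻¹ N C` of the
local monodromy is rational and the form `Cᵀ S C` is proportional to a rational one. -/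
structure RationalStructure {n : ℕ} (C : Matrix (Fin n) (Fin n) ℂ) : Prop where
  det : C.det ≠ 0
  log : ∃ M : Matrix (Fin n) (Fin n) ℚ, C * M.map (fun x : ℚ => (x : ℂ)) = (2 * (Real.pi : ℂ) * Complex.I) • (N n * C)
  form : ∃ (Q : Matrix (Fin n) (Fin n) ℚ) (κ : ℂ), C.transpose * S n * C = κ • Q.map (fun x : ℚ => (x : ℂ))

/-- The step `F^p` of the Hodge filtration at the point `z = 1 / t` in the rational coordinates: the span of the rows
`(θ^i f_j)_j C`, `i + p < 2m`, if `p ≥ m`, and the orthogonal complement of `F^{2m-p}` if `p < m`. -/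
noncomputable def F {m : ℕ} (β : Fin m → ℚ) (t : ℕ) (C : Matrix (Fin (2 * m)) (Fin (2 * m)) ℂ) (p : ℕ) :
    Submodule ℂ (Fin (2 * m) → ℂ) :=
  if m ≤ p then Submodule.span ℂ {v | ∃ i : ℕ, i + p < 2 * m ∧ v = Matrix.vecMul (per β t i) C}
  else
    { carrier := {v | ∀ j, j < p → dotProduct (Matrix.vecMul (Matrix.vecMul v C⁻¹) (S (2 * m))) (per β t j) = 0}
      add_mem' := fun {a b} ha hb j hj => by
        rw [Matrix.add_vecMul, Matrix.add_vecMul, add_dotProduct, ha j hj, hb j hj, add_zero]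
      zero_mem' := fun j _ => by rw [Matrix.zero_vecMul, Matrix.zero_vecMul, zero_dotProduct]
      smul_mem' := fun c a ha j hj => by
        rw [Matrix.smul_vecMul, Matrix.smul_vecMul, smul_dotProduct, ha j hj, smul_zero] }

/-- The filtration `F` and its complex conjugate are opposed, that is, they define a Hodge structure of weight `n - 1`:
no non-zero vector `v` satisfies `v ∈ F^p` and `conj v ∈ F^{n-p}`. -/
def IsHodge {n : ℕ} (F : ℕ → Submodule ℂ (Fin n → ℂ)) : Prop := ∀ p ≤ n, ∀ v ∈ F p, star v ∈ F (n - p) → v = 0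

/-- the value at the rows `x_1, …, x_d` of the multilinear form of degree `d` with rational coefficients `T` -/
noncomputable def value {n d : ℕ} (T : (Fin d → Fin n) → ℚ) (x : Fin d → Fin n → ℂ) : ℂ :=
  ∑ J : Fin d → Fin n, (T J : ℂ) * ∏ l, x l (J l)

/-- The rational multilinear form `T` of degree `d` on the Hodge structure `V = ℚ^n` of weight `n - 1` is a Hodge tensor,
that is, a morphism of Hodge structures from the tensor power `V^{⊗d}` to `ℚ(-d(n-1)/2)`: it vanishes on
`F^{p_1} ⊗ ⋯ ⊗ F^{p_d}` if `p_1 + ⋯ + p_d > d (n - 1) / 2`. -/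
def IsHodgeTensor {n d : ℕ} (F : ℕ → Submodule ℂ (Fin n → ℂ)) (T : (Fin d → Fin n) → ℚ) : Prop :=
  ∀ p : Fin d → ℕ, d * (n - 1) < 2 * ∑ l, p l → ∀ x : Fin d → Fin n → ℂ, (∀ l, x l ∈ F (p l)) → value T x = 0

/-- the polarisation, an alternating form on the space of rows -/
noncomputable def pairing {n : ℕ} (C : Matrix (Fin n) (Fin n) ℂ) (v w : Fin n → ℂ) : ℂ :=
  dotProduct (Matrix.vecMul (Matrix.vecMul v C⁻¹) (S n)) (Matrix.vecMul w C⁻¹)

/-- the Lie algebra of the symplectic group of the polarisation, acting on rows from the right -/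
def IsSymplectic {n : ℕ} (C A : Matrix (Fin n) (Fin n) ℂ) : Prop :=
  ∀ v w, pairing C (Matrix.vecMul v A) w + pairing C v (Matrix.vecMul w A) = 0

theorem N_eq (n : ℕ) : N n = Pool.Agent.Y119.HY.cm (Pool.Agent.Y119.HY.Am n) := by
  ext i j
  rw [Pool.Agent.Y119.HY.cm_apply]
  unfold N Pool.Agent.Y119.HY.Am
  rw [Matrix.of_apply, Matrix.of_apply]
  split_ifs <;> simp

theorem S_eq (n : ℕ) : S n = Pool.Agent.Y119.HY.cm (Pool.Agent.Y118.CM.J0 n) := by
  ext i j
  rw [Pool.Agent.Y119.HY.cm_apply]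
  unfold S Pool.Agent.Y118.CM.J0
  rw [Matrix.of_apply, Matrix.of_apply]
  split_ifs <;> simp

theorem map_eq {n : ℕ} (M : Matrix (Fin n) (Fin n) ℚ) : M.map (fun x : ℚ => (x : ℂ)) = Pool.Agent.Y119.HY.cm M := by
  ext i j
  rw [Pool.Agent.Y119.HY.cm_apply, Matrix.map_apply]

theorem F_eq {m : ℕ} (hm : 1 ≤ m) (β : Fin m → ℚ) (t : ℕ) {C : Matrix (Fin (2 * m)) (Fin (2 * m)) ℂ}
    {Q : Matrix (Fin (2 * m)) (Fin (2 * m)) ℚ} {κ : ℂ} (hC : C.det ≠ 0)
    (hP : C.transpose * Pool.Agent.Y119.HY.cm (Pool.Agent.Y118.CM.J0 (2 * m)) * C = κ • Pool.Agent.Y119.HY.cm Q) (p : ℕ) :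
    F β t C p = Pool.Agent.Y118.HX.Fl (fun i => Matrix.vecMul (Pool.Agent.Y118.CM.perr β t i) C)
      (Pool.Agent.Y119.HY.cm Q⁻¹) p := by
  by_cases hp : m ≤ p
  · rw [Pool.Agent.Y118.HX.Fl_hi hp]
    unfold F
    rw [if_pos hp]
    rfl
  · ext v
    rw [Pool.Agent.Y118.HX.mem_Fl_lo (not_le.1 hp)]
    unfold F
    rw [if_neg hp]
    show (∀ j, j < p → dotProduct (Matrix.vecMul (Matrix.vecMul v C⁻¹) (S (2 * m))) (per β t j) = 0) ↔ _
    refine forall_congr' fun j => forall_congr' fun _ => ?_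
    obtain ⟨hκ, -, -⟩ := Pool.Agent.Y118.HX.kappa_ne hC hP hm
    have h1 := Pool.Agent.Y118.HX.dual_form hC hP hm
    have hCC : C⁻¹ * C = 1 := Matrix.nonsing_inv_mul _ (isUnit_iff_ne_zero.2 hC)
    have h2 : dotProduct v (Matrix.mulVec (Pool.Agent.Y119.HY.cm Q⁻¹) (Matrix.vecMul (per β t j) C)) =
        (-κ) * dotProduct (Matrix.vecMul (Matrix.vecMul v C⁻¹) (S (2 * m))) (per β t j) := by
      have h3 : v = Matrix.vecMul (Matrix.vecMul v C⁻¹) C := by
        rw [Matrix.vecMul_vecMul, hCC, Matrix.vecMul_one]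
      conv_lhs => rw [h3]
      rw [← Matrix.mulVec_transpose C (per β t j), Matrix.dotProduct_mulVec, Matrix.dotProduct_mulVec,
        Matrix.vecMul_vecMul, Matrix.vecMul_vecMul, ← Matrix.mul_assoc, h1, S_eq, Matrix.vecMul_smul, smul_dotProduct,
        smul_eq_mul]
    rw [show Pool.Agent.Y118.CM.perr β t j = per β t j from rfl, h2]
    constructor
    · intro h
      rw [h, mul_zero]
    · intro h
      exact (mul_eq_zero.1 h).resolve_left (neg_ne_zero.2 hκ)

theorem sym_eq {m : ℕ} (hm : 1 ≤ m) {C A : Matrix (Fin (2 * m)) (Fin (2 * m)) ℂ}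
    {Q : Matrix (Fin (2 * m)) (Fin (2 * m)) ℚ} {κ : ℂ} (hC : C.det ≠ 0)
    (hP : C.transpose * Pool.Agent.Y119.HY.cm (Pool.Agent.Y118.CM.J0 (2 * m)) * C = κ • Pool.Agent.Y119.HY.cm Q)
    (hA : IsSymplectic C A) : A * Pool.Agent.Y119.HY.cm Q⁻¹ + Pool.Agent.Y119.HY.cm Q⁻¹ * A.transpose = 0 := by
  obtain ⟨hκ, -, -⟩ := Pool.Agent.Y118.HX.kappa_ne hC hP hm
  have h1 := Pool.Agent.Y118.HX.dual_form hC hP hm
  have hCC : C⁻¹ * C = 1 := Matrix.nonsing_inv_mul _ (isUnit_iff_ne_zero.2 hC)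
  have hp : ∀ v w : Fin (2 * m) → ℂ, dotProduct v (Matrix.mulVec (Pool.Agent.Y119.HY.cm Q⁻¹) w) = (-κ) * pairing C v w := by
    intro v w
    have h3 : v = Matrix.vecMul (Matrix.vecMul v C⁻¹) C := by
      rw [Matrix.vecMul_vecMul, hCC, Matrix.vecMul_one]
    have h4 : w = Matrix.vecMul (Matrix.vecMul w C⁻¹) C := by
      rw [Matrix.vecMul_vecMul, hCC, Matrix.vecMul_one]
    conv_lhs => rw [h3, h4]
    unfold pairing
    rw [← Matrix.mulVec_transpose C (Matrix.vecMul w C⁻¹), Matrix.dotProduct_mulVec, Matrix.dotProduct_mulVec,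
      Matrix.vecMul_vecMul, Matrix.vecMul_vecMul, ← Matrix.mul_assoc, h1, S_eq, Matrix.vecMul_smul, smul_dotProduct,
      smul_eq_mul]
  ext i j
  have h2 := hA (Pi.single i 1) (Pi.single j 1)
  have h3 : dotProduct (Matrix.vecMul (Pi.single i 1) A) (Matrix.mulVec (Pool.Agent.Y119.HY.cm Q⁻¹) (Pi.single j 1)) +
      dotProduct (Pi.single i 1) (Matrix.mulVec (Pool.Agent.Y119.HY.cm Q⁻¹) (Matrix.vecMul (Pi.single j 1) A)) = 0 := by
    rw [hp, hp, ← mul_add, h2, mul_zero]
  rw [Matrix.add_apply, Matrix.zero_apply, ← h3, Matrix.dotProduct_mulVec, Matrix.vecMul_vecMul, Matrix.single_one_vecMul,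
    dotProduct_single_one, ← Matrix.mulVec_transpose A, Matrix.mulVec_mulVec, Matrix.mulVec_single_one,
    single_one_dotProduct]
  rfl

/-- Let `m ≥ 4` and let `β_1, …, β_m` be rational numbers in `(0, 1)`. Then there is `t0` such that for all integers
`t ≥ t0` and all polarised rational structures for which the filtration of the hypergeometric variation
`θ^(2m) - z ∏_j (θ + β_j) (θ + 1 - β_j)` at the point `z = 1 / t` is a Hodge structure, all Hodge tensors (of all
degrees `d`) of this Hodge structure are invariant under the Lie algebra of the symplectic group. -/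
theorem result {m : ℕ} (hm : 4 ≤ m) (β : Fin m → ℚ) (hβ : ∀ j, 0 < β j ∧ β j < 1) :
    ∃ t0 : ℕ, ∀ t : ℕ, t0 ≤ t → ∀ C : Matrix (Fin (2 * m)) (Fin (2 * m)) ℂ, RationalStructure C → IsHodge (F β t C) →
      ∀ (d : ℕ) (T : (Fin d → Fin (2 * m)) → ℚ), IsHodgeTensor (F β t C) T →
        ∀ A : Matrix (Fin (2 * m)) (Fin (2 * m)) ℂ, IsSymplectic C A → ∀ x : Fin d → Fin (2 * m) → ℂ,
          ∑ l, value T (Function.update x l (Matrix.vecMul (x l) A)) = 0 := by
  have hβ' : ∀ j, ∀ a : ℤ, β j ≠ a := by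
    intro j a h
    have h1 := hβ j
    rw [h] at h1
    have h2 : (0 : ℤ) < a := by exact_mod_cast h1.1
    have h3 : a < (1 : ℤ) := by exact_mod_cast h1.2
    omega
  have hpi : (2 * (Real.pi : ℂ) * Complex.I) ≠ 0 := Complex.two_pi_I_ne_zero
  obtain ⟨t1, -, ht1⟩ := Pool.Agent.Y118.HX.no_tensor hm hβ'
  refine ⟨t1, fun t ht C hC hF d T hT A hA x => ?_⟩
  obtain ⟨hdet, ⟨M, hM⟩, Q, κ, hQ⟩ := hC
  rw [map_eq, N_eq] at hM
  rw [map_eq, S_eq] at hQ
  have hFe := F_eq (β := β) (t := t) (by omega) hdet hQ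
  have hopp : ∀ p ≤ 2 * m, Pool.Agent.Y118.HX.Fl (fun i => Matrix.vecMul (Pool.Agent.Y118.CM.perr β t i) C)
      (Pool.Agent.Y119.HY.cm Q⁻¹) p ⊓ Pool.Agent.Y118.HX.cj (Pool.Agent.Y118.HX.Fl
      (fun i => Matrix.vecMul (Pool.Agent.Y118.CM.perr β t i) C) (Pool.Agent.Y119.HY.cm Q⁻¹) (2 * m - p)) = ⊥ := by
    intro p hp
    rw [eq_bot_iff]
    intro v hv
    rw [Submodule.mem_inf, Pool.Agent.Y118.HX.mem_cj, ← hFe, ← hFe] at hv
    rw [Submodule.mem_bot]
    exact hF p hp v hv.1 hv.2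
  have hval : ∀ x : Fin d → Fin (2 * m) → ℂ, value T x = Pool.Agent.Y118.HX.evx x (Pool.Agent.Y118.HX.cmT T) := by
    intro x
    unfold value Pool.Agent.Y118.HX.evx Pool.Agent.Y118.HX.cmT
    exact Finset.sum_congr rfl fun J _ => mul_comm _ _
  have h1 := ht1 t ht C M Q _ κ hdet hpi hM hQ hopp d T (fun p hp x hx => by
    rw [← hval]
    refine hT p hp x fun l => ?_
    rw [hFe]
    exact hx l) A (sym_eq (by omega) hdet hQ hA)
  simp only [hval]
  rw [Pool.Agent.Y118.HX.evx_act, h1]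
  unfold Pool.Agent.Y118.HX.evx
  exact Finset.sum_eq_zero fun J _ => by rw [Pi.zero_apply, mul_zero]

end Pool.Agent.Results.MP_0704bf_ag.HodgeGenericIntegralPoints
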