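import Pool.Agent.Y119.HA.Mt
import Pool.Agent.Y119.HA.Nor

/-!
# The Hodge locus of the hypergeometric variations of Calabi–Yau type: algebraic points of bounded degree near the cusp

Let `β_1, …, β_m` be rational numbers in `(0, 1)` and `θ = z d/dz`. The hypergeometric operator
`θ^(2m) - z ∏_j (θ + β_j) (θ + 1 - β_j)` has maximally unipotent monodromy at `z = 0` and underlies an irreducible
variation of Hodge structure of rank `2m` and of weight `2m - 1` with all Hodge numbers `h^{p,q} = 1` on the projective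
line minus three points, with generic Mumford–Tate group `GSp(2m)`; it is defined over `ℚ` if the set of the
`exp (2 π i β_j)^{±1}` with multiplicities is Galois stable. In coordinates with respect to the Frobenius basis
`f_0, …, f_{2m-1}` of solutions the step `F^p`, `p ≥ m`, of the Hodge filtration is spanned by the rows
`(θ^i f_0, …, θ^i f_{2m-1})`, `i + p < 2m`. The rational structure is given by an invertible matrix `C`, with periods of
the limiting mixed Hodge structure as entries. We only use that the logarithm of the monodromy at `z = 0` and (up to a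
factor) the intersection form are rational, and prove for `m ≥ 4` that the Mumford–Tate group of the Hodge structure at
the point `z = 1 / ξ` is `GSp(2m)` for all but finitely many algebraic numbers `ξ` with `|ξ| > 1` of bounded degree and
of height bounded by a power of `|ξ|`, uniformly in all rational structures. In other words, the Hodge locus (of all
tensor constructions) contains only finitely many of these points.
-/

set_option autoImplicit false

open PowerSeries

namespace Pool.Agent.Results.MP_0704bf_ag.HypergeometricAlgebraicGeneric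

/-- the power series `x + ε` in the variable `ε` -/
noncomputable def shift (x : ℚ) : PowerSeries ℚ := C x + X

/-- `a_k(ε) = ∏_{l < k} ∏_j (l + ε + β_j) (l + ε + 1 - β_j) / (l + 1 + ε)^2`. The series `∑_k a_k(ε) z^(k + ε)` satisfies
`(θ^n - z ∏_j (θ + β_j) (θ + 1 - β_j)) f = ε^n z^ε`, `n = 2m`, hence its coefficients `f_j` at `ε^j` with `j < n` are
solutions of the homogeneous equation. -/
noncomputable def frob {m : ℕ} (β : Fin m → ℚ) (k : ℕ) : PowerSeries ℚ :=
  ∏ l ∈ Finset.range k, ∏ j, (shift (l + β j) * shift (l + 1 - β j) * ((shift (l + 1))⁻¹) ^ 2)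

/-- The row `((θ^i f_j)(1 / ξ))_j`, where `f_j(z)` is the coefficient of `ε^j` in the series `∑_k a_k(ε) z^(k + ε)`,
`z^ε = ∑_a (log z)^a ε^a / a!`, with the value `-l` of `log z`, where `exp l = ξ`. -/
noncomputable def per {m : ℕ} (β : Fin m → ℚ) (ξ l : ℂ) (i : ℕ) : Fin (2 * m) → ℂ := fun j =>
  ∑ a ∈ Finset.range ((j : ℕ) + 1), (-l) ^ a / (a.factorial : ℂ) *
    ∑' k : ℕ, ((coeff ((j : ℕ) - a) (shift k ^ i * frob β k) : ℚ) : ℂ) * (1 / ξ) ^ k

/-- The nilpotent matrix: `exp (2 π i N)` is the local monodromy at `z = 0` in the basis `f_0, …, f_{n-1}`. -/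
def N (n : ℕ) : Matrix (Fin n) (Fin n) ℂ := Matrix.of fun i j => if (j : ℕ) = i + 1 then 1 else 0

/-- the matrix of the flat alternating form in the Frobenius basis -/
def S (n : ℕ) : Matrix (Fin n) (Fin n) ℂ := Matrix.of fun i j => if (i : ℕ) + j + 1 = n then (-1) ^ (i : ℕ) else 0

/-- a rational matrix as a complex matrix -/
def toC {n : ℕ} (M : Matrix (Fin n) (Fin n) ℚ) : Matrix (Fin n) (Fin n) ℂ := M.map fun x : ℚ => (x : ℂ)

/-- The base change `C` from the Frobenius basis to rational coordinates and the rational form `(v, w) ↦ v A wᵀ` on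
`ℚ^n` (row vectors) are a rational structure with a form: the logarithm `2 π i C⁻¹ N C` of the local monodromy is rational
and the form is proportional to the flat form `S`. -/
structure RationalStructure {n : ℕ} (C : Matrix (Fin n) (Fin n) ℂ) (A : Matrix (Fin n) (Fin n) ℚ) : Prop where
  det : C.det ≠ 0
  log : ∃ M : Matrix (Fin n) (Fin n) ℚ, C * toC M = (2 * (Real.pi : ℂ) * Complex.I) • (N n * C)
  form : ∃ κ : ℂ, κ ≠ 0 ∧ C * toC A * C.transpose = κ • S n

/-- `H p = H^{p, n-1-p}`, `p < n = 2m`, are the parts of a Hodge structure of weight `n - 1` on `ℚ^n`, polarised by `± A`,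
the steps `F^p = ⨁_{r ≥ p} H^{r, n-1-r}`, `p ≥ m`, of whose Hodge filtration are the spans of the derivatives of order
`< n - p` of the period vector at the point `z = 1 / ξ` (the other steps are their orthogonal complements). -/
structure IsFibre {m : ℕ} (β : Fin m → ℚ) (ξ l : ℂ) (C : Matrix (Fin (2 * m)) (Fin (2 * m)) ℂ)
    (A : Matrix (Fin (2 * m)) (Fin (2 * m)) ℚ) (H : ℕ → Submodule ℂ (Fin (2 * m) → ℂ)) : Prop where
  fil : ∀ p, m ≤ p → (⨆ r : {r : ℕ // p ≤ r ∧ r < 2 * m}, H r) =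
    Submodule.span ℂ {v | ∃ i : ℕ, i + p < 2 * m ∧ v = Matrix.vecMul (per β ξ l i) C}
  conj : ∀ p < 2 * m, ∀ v ∈ H p, (fun i => star (v i)) ∈ H (2 * m - 1 - p)
  orth : ∀ p < 2 * m, ∀ r < 2 * m, p + r ≠ 2 * m - 1 → ∀ v ∈ H p, ∀ w ∈ H r,
    dotProduct v (Matrix.mulVec (toC A) w) = 0
  pos : ∃ ε : ℂ, (ε = 1 ∨ ε = -1) ∧ ∀ p < 2 * m, ∀ v ∈ H p, v ≠ 0 →
    0 < (ε * (Complex.I ^ p * (-Complex.I) ^ (2 * m - 1 - p)) *
      dotProduct v (Matrix.mulVec (toC A) fun i => star (v i))).re

/-- The Hodge operator `Φ` is the multiplication by `p` on `H^{p, n-1-p}`; it generates with the scalars the Lie algebra of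
the image of the Deligne torus and is the derivative of the cocharacter `z ↦ (z^p on H^{p,q})`. Matrices act on row
vectors from the right. -/
def IsHodgeOperator {m : ℕ} (H : ℕ → Submodule ℂ (Fin (2 * m) → ℂ)) (Φ : Matrix (Fin (2 * m)) (Fin (2 * m)) ℂ) : Prop :=
  ∀ p < 2 * m, ∀ v ∈ H p, Matrix.vecMul v Φ = (p : ℂ) • v

/-- `ξ` is a root of a nonzero integral polynomial of degree at most `g` with coefficients of size at most `|ξ|^A` -/
def Height (g A : ℕ) (ξ : ℂ) : Prop :=
  ∃ p : Polynomial ℤ, p ≠ 0 ∧ p.natDegree ≤ g ∧ (∀ j, |(p.coeff j : ℝ)| ≤ ‖ξ‖ ^ A) ∧ Polynomial.aeval ξ p = 0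

/-- Every rational Lie algebra of matrices whose complexification contains the Hodge operator (for example the Lie algebra
of the Mumford–Tate group of `H`) contains the whole symplectic Lie algebra of the form `A`. -/
def HodgeGeneric {m : ℕ} (A : Matrix (Fin (2 * m)) (Fin (2 * m)) ℚ) (H : ℕ → Submodule ℂ (Fin (2 * m) → ℂ)) : Prop :=
  ∀ 𝔪 : Submodule ℚ (Matrix (Fin (2 * m)) (Fin (2 * m)) ℚ), (∀ X ∈ 𝔪, ∀ Y ∈ 𝔪, X * Y - Y * X ∈ 𝔪) →
    (∀ Φ, IsHodgeOperator H Φ → Φ ∈ Submodule.span ℂ (toC '' (𝔪 : Set (Matrix (Fin (2 * m)) (Fin (2 * m)) ℚ)))) →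
    ∀ X : Matrix (Fin (2 * m)) (Fin (2 * m)) ℚ, X * A + A * X.transpose = 0 → X ∈ 𝔪

/-- The point `1 / ξ` is in the Hodge locus for some choice of the rational structure: there are a logarithm `l` of `ξ`, a
rational structure `(C, A)` and a Hodge structure polarised by `± A` which is the fibre at `1 / ξ` and is not generic. -/
def Special {m : ℕ} (β : Fin m → ℚ) (ξ : ℂ) : Prop :=
  ∃ (l : ℂ) (C : Matrix (Fin (2 * m)) (Fin (2 * m)) ℂ) (A : Matrix (Fin (2 * m)) (Fin (2 * m)) ℚ)
    (H : ℕ → Submodule ℂ (Fin (2 * m) → ℂ)), Complex.exp l = ξ ∧ RationalStructure C A ∧ IsFibre β ξ l C A H ∧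
    ¬ HodgeGeneric A H

theorem N_eq (n : ℕ) : N n = Pool.Agent.Y113.MT.NN ℂ n := rfl

theorem S_eq (n : ℕ) : S n = Pool.Agent.Y113.MT.SS ℂ n := rfl

theorem toC_eq {n : ℕ} (M : Matrix (Fin n) (Fin n) ℚ) : toC M = Pool.Agent.Y113.MT.cq M := rfl

/-- Let `m ≥ 4` and let `β_1, …, β_m` be rational numbers in `(0, 1)`. (1) For all `g` and `A` only finitely many algebraic
numbers `ξ` of degree `≤ g`, `|ξ| > 1`, of height `≤ |ξ|^A`, are such that the fibre of the hypergeometric variation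
`θ^(2m) - z ∏_j (θ + β_j) (θ + 1 - β_j)` at the point `z = 1 / ξ` is in the Hodge locus for some polarised rational
structure (which may depend on `ξ`). (2) For all `g` only finitely many algebraic integers `ξ` of degree `≤ g` are such that
the fibres at all the points `1 / ξ'` in the unit disc, `ξ'` conjugate to `ξ`, are in the Hodge locus. (3) Rational
structures exist. -/
theorem result {m : ℕ} (hm : 4 ≤ m) (β : Fin m → ℚ) (hβ : ∀ j, 0 < β j ∧ β j < 1) :
    (∀ g A : ℕ, {ξ : ℂ | 1 < ‖ξ‖ ∧ Height g A ξ ∧ Special β ξ}.Finite) ∧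
    (∀ g : ℕ, {ξ : ℂ | IsIntegral ℤ ξ ∧ (minpoly ℚ ξ).natDegree ≤ g ∧
      ∀ ξ' : ℂ, Polynomial.aeval ξ' (minpoly ℚ ξ) = 0 → 1 < ‖ξ'‖ → Special β ξ'}.Finite) ∧
    ∃ (C : Matrix (Fin (2 * m)) (Fin (2 * m)) ℂ) (A : Matrix (Fin (2 * m)) (Fin (2 * m)) ℚ), RationalStructure C A := by
  have hβ' : ∀ j, ∀ a : ℤ, β j ≠ a := by
    intro j a h
    have h1 := hβ j
    rw [h] at h1
    have h2 : (0 : ℤ) < a := by exact_mod_cast h1.1
    have h3 : a < (1 : ℤ) := by exact_mod_cast h1.2
    omega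
  have hpi : (2 * (Real.pi : ℂ) * Complex.I) ≠ 0 := Complex.two_pi_I_ne_zero
  have key : ∀ g A : ℕ, ∃ t0 : ℕ, ∀ ξ : ℂ, (t0 : ℝ) ≤ ‖ξ‖ → Height g A ξ → ¬ Special β ξ := by
    intro g A₀
    obtain ⟨t0, -, ht0⟩ := Pool.Agent.Y119.HA.main_mt hm hβ' g A₀
    refine ⟨t0, ?_⟩
    rintro ξ hξ hht ⟨l, C, A, H, -, ⟨hdet, ⟨M, hM⟩, κ, hκ, hA⟩, hH, hgen⟩
    exact hgen fun 𝔪 hbr hΦ X hX => ht0 ξ l hξ hht C M A _ κ hdet hpi hM hκ hA
      (fun p => ⨆ r : {r : ℕ // p ≤ r ∧ r < 2 * m}, H r) H (fun p hp => hH.fil p hp)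
      ⟨fun _ => rfl, hH.conj, hH.orth, hH.pos⟩ 𝔪 hbr hΦ X hX
  refine ⟨fun g A₀ => ?_, fun g => ?_, ?_⟩
  · obtain ⟨t0, ht0⟩ := key g A₀
    refine (Pool.Agent.Y119.HA.finite_ht g A₀ t0 (fun ξ => ¬ Special β ξ) ht0).subset ?_
    rintro ξ ⟨h1, h2, h3⟩
    exact ⟨h1, h2, not_not.2 h3⟩
  · obtain ⟨t0, ht0⟩ := key g (2 * g)
    refine (Pool.Agent.Y119.HA.finite_conj g t0 (fun ξ => ¬ Special β ξ) ht0).subset ?_
    rintro ξ ⟨h1, h2, h3⟩
    exact ⟨h1, h2, fun ξ' hr h1' => not_not.2 (h3 ξ' hr h1')⟩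
  · refine ⟨Matrix.diagonal fun i : Fin (2 * m) => ((2 * (Real.pi : ℂ) * Complex.I)⁻¹) ^ (i : ℕ),
      Matrix.of fun i j => if (i : ℕ) + j + 1 = 2 * m then (-1) ^ (i : ℕ) else 0, ?_, ⟨Matrix.of fun i j =>
        if (j : ℕ) = i + 1 then 1 else 0, ?_⟩, ((2 * (Real.pi : ℂ) * Complex.I)⁻¹) ^ (2 * m - 1),
        pow_ne_zero _ (inv_ne_zero hpi), ?_⟩
    · rw [Matrix.det_diagonal]
      exact Finset.prod_ne_zero_iff.2 fun i _ => pow_ne_zero _ (inv_ne_zero hpi)
    · ext i j
      rw [Matrix.diagonal_mul, Matrix.smul_apply, Matrix.mul_diagonal, smul_eq_mul]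
      unfold N toC
      rw [Matrix.map_apply, Matrix.of_apply, Matrix.of_apply]
      by_cases h : (j : ℕ) = i + 1
      · rw [if_pos h, if_pos h, h, pow_succ]
        push_cast
        field_simp
      · rw [if_neg h, if_neg h]
        push_cast
        ring
    · ext i j
      rw [Matrix.diagonal_transpose, Matrix.mul_diagonal, Matrix.diagonal_mul, Matrix.smul_apply, smul_eq_mul]
      unfold S toC
      rw [Matrix.map_apply, Matrix.of_apply, Matrix.of_apply]
      by_cases h : (i : ℕ) + j + 1 = 2 * m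
      · rw [if_pos h, if_pos h]
        have : 2 * m - 1 = i + j := by omega
        rw [this, pow_add]
        push_cast
        ring
      · rw [if_neg h, if_neg h]
        push_cast
        ring

end Pool.Agent.Results.MP_0704bf_ag.HypergeometricAlgebraicGeneric
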